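import Mathlib
import Pool.Agent.H.MP_6bb0fd_an.Op

set_option autoImplicit false

namespace Pool.Agent.Results.MP_f79668_an.No

open Polynomial Pool.Agent.H.MP_6bb0fd_an

theorem result : ∃ (B : Module.Basis ℕ ℝ ℝ[X]) (M : ℕ) (a : ℕ → ℝ[X]) (a₀ γ : ℕ → ℝ)
    (T : ℝ[X] →ₗ[ℝ] ℝ[X]) (Q : ℕ → ℝ[X]),
    (∀ k, (B k).degree = k) ∧ 1 ≤ M ∧ a M ≠ 0 ∧
    (∀ k, a₀ k • B k + ∑ j ∈ Finset.Icc 1 M, a j * derivative^[j] (B k) = 0) ∧
    (∀ k, T (B k) = γ k • B k) ∧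
    (∀ f, T f = ∑ᶠ k, Q k * derivative^[k] f) ∧ {k | Q k ≠ 0}.Infinite ∧
    (∀ f : ℝ[X], f.Splits → (T f).Splits) ∧ 3 ≤ Module.rank ℝ (LinearMap.range T) ∧
    ∃ k, Q k ≠ 0 ∧ Q (k + 1) ≠ 0 ∧ (Q (k + 1)).degree < (Q k).degree := by
  let S : Polynomial.Sequence ℝ := ⟨B, B_deg⟩
  have u : ∀ i, IsUnit (S i).leadingCoeff := fun i =>
    (leadingCoeff_ne_zero.2 (S.ne_zero i)).isUnit
  have e : ∀ k, S.basis u k = B k := S.basis_eq_self u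
  refine ⟨S.basis u, 2, fun j => if j = 1 then -X else X ^ 2, fun k => k * (2 - k),
    fun k => if k < 3 then 3 * k + 1 else 0, T, Q, fun k => e k ▸ B_deg k, by norm_num, by simp,
    fun k => ?_, fun k => e k ▸ T_B k, rep, Q_inf, fun _ => pres, rk, 1, nonmono⟩
  rw [e, ← B_ode k, smul_eq_C_mul, show Finset.Icc 1 2 = {1, 2} from rfl,
    Finset.sum_pair (by norm_num)]
  simp

end Pool.Agent.Results.MP_f79668_an.No
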